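import Pool.Agent.H731R6.Bc.Fin
import Pool.Agent.H731R6.Bc.HP5

set_option autoImplicit false

/-!
# The number of boundary vertices of a boundary cluster: exact law and scaling limit

Critical bond percolation (`p = 1/2`) on the square lattice rotated by 45 degrees.  The vertices are
the points `(a, t)` with `a + t` even, `t ≥ 0` the depth; `(a, t)` and `(a ± 1, t + 1)` are joined by
an edge, so each cell `[a, a+1] × [t, t+1]` contains exactly one edge.  The domain is the half-plane
(`a ∈ ℤ`) or the half-infinite cylinder (`a ∈ ℤ / 2n`), the boundary is `t = 0`; the cylinder has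
`n` boundary vertices.  The theorem gives the exact law of the number `N` of boundary vertices
joined to `(0, 0)` by open paths of the domain, the limit law of `N / n ^ (2/3)`, in the sense of
vague convergence with its normalisation `n ^ (1/3)` (boundary exponent `1/3`), and all the
limits of moments.
-/

namespace Pool.Agent.Results.MP_35f495_pr.BoundaryClusterLaw

open MeasureTheory Filter Topology

/-- Configurations of the half-infinite cylinder: the state (`true` = open) of the edge in the cell
between the columns `a`, `a + 1` and the depths `t`, `t + 1`. -/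
abbrev Conf (n : ℕ) : Type := ZMod (2 * n) × ℕ → Bool

/-- `p` (upper end) and `r` (lower end) are the ends of an open edge of the cylinder. -/
def OpenAdj (n : ℕ) (ω : Conf n) (p r : ZMod (2 * n) × ℕ) : Prop :=
  ∃ (a : ZMod (2 * n)) (t : ℕ), ω (a, t) = true ∧
    ((Even (a.val + t) ∧ p = (a, t) ∧ r = (a + 1, t + 1)) ∨
      (¬ Even (a.val + t) ∧ p = (a + 1, t) ∧ r = (a, t + 1)))

/-- Critical percolation on the cylinder: independent fair coins. -/
noncomputable def perc (n : ℕ) : Measure (Conf n) :=
  Measure.infinitePi (fun _ => (PMF.uniformOfFintype Bool).toMeasure)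

/-- The boundary vertices of the cylinder joined to `(0, 0)` by an open path. -/
def bcl (n : ℕ) (ω : Conf n) : Set (ZMod (2 * n)) :=
  {b | Relation.EqvGen (OpenAdj n ω) (0, 0) (b, 0)}

/-- `p` (upper end) and `r` (lower end) are the ends of an open edge of the half-plane. -/
def OpenAdjH (ω : ℤ × ℕ → Bool) (p r : ℤ × ℕ) : Prop :=
  ∃ (a : ℤ) (t : ℕ), ω (a, t) = true ∧
    ((Even (a + t) ∧ p = (a, t) ∧ r = (a + 1, t + 1)) ∨
      (¬ Even (a + t) ∧ p = (a + 1, t) ∧ r = (a, t + 1)))

/-- Critical percolation on the half-plane: independent fair coins. -/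
noncomputable def percH : Measure (ℤ × ℕ → Bool) :=
  Measure.infinitePi (fun _ => (PMF.uniformOfFintype Bool).toMeasure)

/-- The boundary vertices of the half-plane joined to `(0, 0)` by an open path. -/
def bclH (ω : ℤ × ℕ → Bool) : Set ℤ := {b | Relation.EqvGen (OpenAdjH ω) (0, 0) (b, 0)}

/-- **The number of boundary vertices of a boundary cluster.**
(1) the exact law on the half-infinite cylinder with `n` boundary vertices; (2) the exact law on the
half-plane; (3) the limit law on the cylinder; (4) the limits of all moments. -/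
theorem result :
    (∀ n k : ℕ, 1 ≤ k → k ≤ n → (perc n).real {ω | k ≤ (bcl n ω).ncard} =
      ((2 * k).choose k : ℝ) * (3 * k - 1) / (2 * (2 * k - 1)) *
      (((n + k - 1).factorial : ℝ) * (2 * n - k).factorial) /
        (((n - k).factorial : ℝ) * (2 * n + k - 1).factorial)) ∧
    (∀ k : ℕ, 1 ≤ k → percH.real {ω | (k : ℕ∞) ≤ (bclH ω).encard} =
      ((2 * k).choose k : ℝ) * (3 * k - 1) / ((2 * k - 1) * 4 ^ k)) ∧
    (∀ x : ℝ, 0 < x → Tendsto (fun n : ℕ => (n : ℝ) ^ ((1 : ℝ) / 3) *
        (perc n).real {ω | x * (n : ℝ) ^ ((2 : ℝ) / 3) ≤ ((bcl n ω).ncard : ℝ)}) atTop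
      (𝓝 (3 / (2 * Real.sqrt Real.pi) * x ^ (-(1 : ℝ) / 2) * Real.exp (-(x ^ 3 / 4))))) ∧
    (∀ m : ℕ, 1 ≤ m → Tendsto (fun n : ℕ =>
        (∫ ω, ((bcl n ω).ncard : ℝ) ^ m ∂(perc n)) / (n : ℝ) ^ ((2 * (m : ℝ) - 1) / 3)) atTop
      (𝓝 ((m : ℝ) / (2 * Real.sqrt Real.pi) * 4 ^ ((2 * (m : ℝ) - 1) / 6) *
        Real.Gamma ((2 * (m : ℝ) - 1) / 6)))) :=
  ⟨H731B.main.1, fun _ hk => H731B.half_plane hk, H731B.main.2.1, H731B.main.2.2⟩

end Pool.Agent.Results.MP_35f495_pr.BoundaryClusterLaw
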