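import Pool.Agent.N948.IX.Fin2

/-!
# Colour switching by translation: two adjacent open and two adjacent closed arms on `ℤ²`

Critical bond percolation on the square lattice. An interface is an orbit of the map `nxt` on the
states: a state is a vertex (on the right of the interface) together with a corner face of this
vertex (on its left), `ae` is the edge which is examined; if it is open the vertex moves along the
edge and the face is kept, if it is closed the vertex is kept and the face moves across the edge. So
the interface has open edges on its right and closed dual edges on its left.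

The event `InOut a b`: there are an interface crossing of the annulus between the squares of radius
`a` and `b` from the outside to the inside, and one from the inside to the outside, at distance at
least `10` from each other. In cyclic order around the annulus there are thus two open arms (on
the right of the two crossings) next to each other and two closed dual arms next to each other.

Theorem: the probability of this event is of exact order `(a / b) ^ (5/4)`, uniformly in `a0 ≤ a < b`.
The same order is known for the four ALTERNATING arms. On the triangular lattice (site percolation)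
all the patterns with both colours have the same probability because colours can be switched; on
`ℤ²` this argument does not apply. Here it is replaced by two facts: the probability of several
disjoint crossings is the same in one configuration and in independent configurations, and the
dual configuration shifted by half a unit has the same law and runs through the interfaces
backwards.

Definitions: `St` (`Vtx × Q4`), `face`, `ae`, `mv`, `rt`, `nxt`, `orb`, `Exm` of
`Pool.Agent.H984R3.Per.Defs`, `opn` of `Pool.Agent.H974R2.Infinite`, `Z2`, `crit` of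
`Pool.Agent.H160R2.ML.T_FIN`.

Project IX (`Pool.Agent.N948.IX`); leaves by helper492 (`C1`), helper645 (`C2`, `N1`), helper271
(`C3`), helper644 (`C4`), helper457 (`C5`), helper897 (`C6`), helper395 (`TL`), helper543 (`N2`),
helper123 (`N3`), helper232 (`PS`), helper340 (`Bas`), helper530 (`A1`), helper568 (`A2`), helper383
(`A3`). Used from the library: the sharp four-arm bounds (`W347.DPAA`, `TH992.E`) and the six-arm
bound at a fixed inner radius (`TH992.E`).
-/

set_option autoImplicit false

namespace Pool.Agent.Results.MP_35f495_pr.ColourSwitching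

open H974 H984P MeasureTheory
open Pool.Agent.H160R2.ML.TFIN (Z2 crit)

/-- Twice the sup-norm of the centre of the face with lower left corner `f`. -/
def faceNorm (f : ℤ × ℤ) : ℤ := max |2 * f.1 + 1| |2 * f.2 + 1|

/-- The face is between the squares of radius `a` and `b` at the times `0 < s < T`. -/
def Between (F : Set Edg) (a b : ℕ) (σ : St) (T : ℕ) : Prop :=
  ∀ s, 0 < s → s < T → 2 * (a : ℤ) < faceNorm (face (orb F σ s)) ∧
    faceNorm (face (orb F σ s)) < 2 * (b : ℤ)

/-- `σ, nxt F σ, ..., nxt F^T σ` is a crossing of the annulus from the outside to the inside. -/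
def Inward (F : Set Edg) (a b : ℕ) (σ : St) (T : ℕ) : Prop :=
  0 < T ∧ 2 * (b : ℤ) < faceNorm (face σ) ∧ Between F a b σ T ∧
    faceNorm (face (orb F σ T)) < 2 * (a : ℤ)

/-- `τ, nxt F τ, ..., nxt F^U τ` is a crossing of the annulus from the inside to the outside. -/
def Outward (F : Set Edg) (a b : ℕ) (τ : St) (U : ℕ) : Prop :=
  0 < U ∧ faceNorm (face τ) < 2 * (a : ℤ) ∧ Between F a b τ U ∧
    2 * (b : ℤ) < faceNorm (face (orb F τ U))

/-- An inward and an outward crossing at distance at least `10` from each other: the lower left ends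
of the examined edges are at sup-distance at least `10`. -/
def InOut (a b : ℕ) (ω : Z2.edgeSet → Bool) : Prop :=
  ∃ (σ : St) (T : ℕ) (τ : St) (U : ℕ), Inward (opn ω) a b σ T ∧ Outward (opn ω) a b τ U ∧
    ∀ e ∈ Exm (opn ω) σ T, ∀ e' ∈ Exm (opn ω) τ U,
      10 ≤ max |(src e').1 - (src e).1| |(src e').2 - (src e).2|

theorem lf_eq (f : Vtx) : Pool.Agent.N948.IX.lf (0, 0) f = faceNorm f := by
  unfold Pool.Agent.N948.IX.lf faceNorm
  simp only [sub_zero]

theorem inout_iff (a b : ℕ) (ω : Z2.edgeSet → Bool) :
    InOut a b ω ↔ Pool.Agent.N948.IX.IO 10 (0, 0) a b (opn ω) := by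
  constructor
  · rintro ⟨σ, T, τ, U, ⟨h1, h2, h3, h4⟩, ⟨g1, g2, g3, g4⟩, hs⟩
    refine ⟨σ, T, τ, U, ⟨h1, ?_, fun s a1 a2 => ?_, ?_⟩, ⟨g1, ?_, fun s a1 a2 => ?_, ?_⟩,
      fun e he e' he' => ?_⟩
    · rw [lf_eq]; exact h2
    · rw [lf_eq]; exact h3 s a1 a2
    · rw [lf_eq]; exact h4
    · rw [lf_eq]; exact g2
    · rw [lf_eq]; exact g3 s a1 a2
    · rw [lf_eq]; exact g4
    · exact_mod_cast hs e he e' he'
  · rintro ⟨σ, T, τ, U, ⟨h1, h2, h3, h4⟩, ⟨g1, g2, g3, g4⟩, hs⟩
    refine ⟨σ, T, τ, U, ⟨h1, ?_, fun s a1 a2 => ?_, ?_⟩, ⟨g1, ?_, fun s a1 a2 => ?_, ?_⟩,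
      fun e he e' he' => ?_⟩
    · rw [← lf_eq]; exact h2
    · rw [← lf_eq]; exact h3 s a1 a2
    · rw [← lf_eq]; exact h4
    · rw [← lf_eq]; exact g2
    · rw [← lf_eq]; exact g3 s a1 a2
    · rw [← lf_eq]; exact g4
    · exact_mod_cast hs e he e' he'

theorem result : ∃ c C : ℝ, 0 < c ∧ 0 < C ∧ ∃ a0 : ℕ, ∀ a b : ℕ, a0 ≤ a → a < b →
    c * ((a : ℝ) / b) ^ (5/4 : ℝ) ≤ crit.real {ω | InOut a b ω} ∧
    crit.real {ω | InOut a b ω} ≤ C * ((a : ℝ) / b) ^ (5/4 : ℝ) := by
  obtain ⟨C, hC, hU⟩ := Pool.Agent.N948.IX.hioUp
  obtain ⟨c, hc, a0, ha0, hL⟩ := Pool.Agent.N948.IX.hioLo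
  refine ⟨c, C, hc, hC, a0, fun a b ha hab => ?_⟩
  have e : {ω : Z2.edgeSet → Bool | InOut a b ω} =
      {ω | Pool.Agent.N948.IX.IO 10 (0, 0) a b (opn ω)} := by
    ext ω
    exact inout_iff a b ω
  have key := Pool.Agent.N948.IX.io_law 10 hab
  rw [e]
  exact ⟨(hL (0, 0) a b _ ha hab (Finset.Subset.refl _)).trans_eq key.symm,
    key.trans_le (hU (0, 0) a b _ (by omega) hab (Finset.Subset.refl _))⟩

end Pool.Agent.Results.MP_35f495_pr.ColourSwitching
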