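import Pool.Agent.W808.KC.All

/-!
Critical bond percolation on the square lattice `ℤ²` at a corner of angle `π / 2` (free boundary): the
probability of `j` alternating arms from the corner to distance `R` is of order `R ^ (-j (j + 1) / 3)`,
for every `j ≥ 1`.
-/

set_option autoImplicit false

namespace Pool.Agent.Results.MP_35f495_pr.CornerArms

open MeasureTheory

/-- Vertices of the square lattice. -/
abbrev Vertex := ℤ × ℤ

/-- Edges: `(x, y, true)` joins `(x, y)` to `(x + 1, y)` and `(x, y, false)` joins `(x, y)` to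
`(x, y + 1)`. -/
abbrev Edge := ℤ × ℤ × Bool

/-- First endpoint of an edge. -/
def src (e : Edge) : Vertex := (e.1, e.2.1)

/-- Second endpoint of an edge. -/
def tgt (e : Edge) : Vertex := if e.2.2 then (e.1 + 1, e.2.1) else (e.1, e.2.1 + 1)

/-- Critical bond percolation on `ℤ²`: every edge is open (`true`) with probability `1 / 2`,
independently. -/
noncomputable def perc : Measure (Edge → Bool) :=
  Measure.infinitePi (fun _ => (PMF.uniformOfFintype Bool).toMeasure)

/-- `u` and `v` are joined by an open edge with both endpoints in `T`. -/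
def Adj (T : Set Vertex) (ω : Edge → Bool) (u v : Vertex) : Prop :=
  ∃ e : Edge, (ω e = true ∧ src e ∈ T ∧ tgt e ∈ T) ∧ ((src e = u ∧ tgt e = v) ∨ (src e = v ∧ tgt e = u))

/-- `u` and `v` are joined by an open path in `T`. -/
def Conn (T : Set Vertex) (ω : Edge → Bool) (u v : Vertex) : Prop := Relation.ReflTransGen (Adj T ω) u v

/-- The box of radius `R` of the quarter-plane `y ≤ x`, `-1 ≤ x + y`. -/
def corner (R : ℕ) : Set Vertex := {v | v.2 ≤ v.1 ∧ -1 ≤ v.1 + v.2 ∧ |v.1| ≤ R ∧ |v.2| ≤ R}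

/-- `j` alternating arms from the corner to distance `R`: the vertices `(i, i)`, `i < k`,
`k = ⌊(j + 1) / 2⌋`, next to the corner are in different open clusters of the box of the quarter-plane,
these clusters reach distance `R` and, if `j` is even, they do not contain other vertices `(l, l)`,
`k ≤ l ≤ R`, of the side `x = y`. (So there are `k` open arms, which are separated from each other by
`k - 1` dual arms and, if `j` is even, separated from the side `x = y` by one more dual arm.) -/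
def Arms (j R : ℕ) (ω : Edge → Bool) : Prop :=
  (∀ a b : ℕ, a < (j + 1) / 2 → b < (j + 1) / 2 → a ≠ b → ¬ Conn (corner R) ω (a, a) (b, b)) ∧
  (∀ a : ℕ, a < (j + 1) / 2 → ∃ y : Vertex, max |y.1| |y.2| = R ∧ Conn (corner R) ω (a, a) y) ∧
  (j % 2 = 0 → ∀ a b : ℕ, a < (j + 1) / 2 → (j + 1) / 2 ≤ b → b ≤ R →
    ¬ Conn (corner R) ω (a, a) (b, b))

theorem perc_eq : perc = Pool.Agent.H988R2.Perc.perc := rfl

theorem mem_qbx {R : ℕ} {e : Edge} :
    e ∈ Pool.Agent.W808.KC.qbx (R : ℤ) ↔ src e ∈ corner R ∧ tgt e ∈ corner R := by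
  obtain ⟨x, y, b⟩ := e
  unfold Pool.Agent.W808.KC.qbx corner H906.Cyl.dco Pool.Agent.H160R2.ML.nm
  simp only [Set.mem_ofPred_eq, max_le_iff]
  cases b
  · simp only [src, tgt, H974.src, H974.tgt, Bool.false_eq_true, if_false, abs_le]
    omega
  · simp only [src, tgt, H974.src, H974.tgt, if_true, abs_le]
    omega

theorem conn_corner {R : ℕ} (ω : Edge → Bool) (u v : Vertex) :
    Conn (corner R) ω u v ↔
      H974.Reach ({e | ω e = true} ∩ Pool.Agent.W808.KC.qbx (R : ℤ)) u v := by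
  have h : Adj (corner R) ω =
      H974.Adj ({e | ω e = true} ∩ Pool.Agent.W808.KC.qbx (R : ℤ)) := by
    funext a b
    refine propext ⟨?_, ?_⟩
    · rintro ⟨e, ⟨h1, h2, h3⟩, h4⟩
      exact ⟨e, ⟨h1, mem_qbx.2 ⟨h2, h3⟩⟩, h4⟩
    · rintro ⟨e, ⟨h1, h2⟩, h4⟩
      exact ⟨e, ⟨h1, mem_qbx.1 h2⟩, h4⟩
  unfold Conn
  rw [h]
  exact Iff.rfl

theorem arms_iff (j R : ℕ) (ω : Edge → Bool) :
    Arms j R ω ↔ Pool.Agent.W808.KC.SEq (j + 1) R {e | ω e = true} := by
  unfold Arms Pool.Agent.W808.KC.SEq Pool.Agent.W808.KC.cv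
  simp only [conn_corner]
  have h : j % 2 = 0 ↔ (j + 1) % 2 = 1 := by omega
  rw [h]
  refine and_congr Iff.rfl (and_congr Iff.rfl ?_)
  refine imp_congr_right fun _ => forall_congr' fun a => forall_congr' fun b =>
    imp_congr_right fun _ => imp_congr_right fun _ => ?_
  rw [Nat.cast_le]

theorem prob_eq (j R : ℕ) :
    perc.real {ω | Arms j R ω} = Pool.Agent.W808.KC.sPq (j + 1) R := by
  classical
  unfold Pool.Agent.W808.KC.sPq
  rw [← Pool.Agent.W808.KC.TINF.perc_event, perc_eq]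
  congr 1
  ext ω
  rw [Set.mem_ofPred_eq, Set.mem_ofPred_eq, arms_iff]
  refine Pool.Agent.W808.KC.TMON.seq_congr fun e he => ?_
  unfold Pool.Agent.W808.KC.TINF.op
  rw [Finset.mem_coe, Finset.mem_filter, Set.mem_ofPred_eq]
  exact ⟨fun h => ⟨Pool.Agent.W808.KC.TMON.qbx_sub_box he, h⟩, fun h => h.2⟩

/-- **Arms at a corner of angle `π / 2`.** For every `j ≥ 1` the probability of `j` alternating arms from
the corner of the quarter-plane to distance `R` is of order `R ^ (-j (j + 1) / 3)`. -/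
theorem result :
    ∀ j : ℕ, 1 ≤ j → ∃ c C : ℝ, 0 < c ∧ 0 < C ∧ ∀ R : ℕ, j + 1 ≤ R →
      c * (R : ℝ) ^ (-((j : ℝ) * (j + 1) / 3)) ≤ perc.real {ω | Arms j R ω} ∧
      perc.real {ω | Arms j R ω} ≤ C * (R : ℝ) ^ (-((j : ℝ) * (j + 1) / 3)) := by
  intro j hj
  obtain ⟨c, C, hc, hC, h⟩ := Pool.Agent.W808.KC.a_SHARP (j + 1) (by omega)
  refine ⟨c, C, hc, hC, fun R hR => ?_⟩
  rw [prob_eq]
  have h2 := h R hR
  have e : ((j + 1 : ℕ) : ℝ) * (((j + 1 : ℕ) : ℝ) - 1) / 3 = (j : ℝ) * (j + 1) / 3 := by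
    push_cast
    ring
  rw [e] at h2
  exact h2

end Pool.Agent.Results.MP_35f495_pr.CornerArms
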