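import Pool.Agent.W808.KC.All
import Pool.Agent.N622.KC.Law

/-!
Critical bond percolation on the square lattice `ℤ²` in the half-infinite strip with a flat end and two
corners of angle `π / 2` (free boundary): the exact law, in terms of the Gamma function, and the exact
asymptotics of the probability of `m` interfaces (legs) between the two corners, for all widths and all
`m ≥ 2`.
-/

set_option autoImplicit false

namespace Pool.Agent.Results.MP_35f495_pr.CornerLegs

open MeasureTheory

/-- Vertices of the square lattice. -/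
abbrev Vertex := ℤ × ℤ

/-- Edges: `(x, y, true)` joins `(x, y)` to `(x + 1, y)` and `(x, y, false)` joins `(x, y)` to
`(x, y + 1)`. -/
abbrev Edge := ℤ × ℤ × Bool

/-- First endpoint of an edge. -/
def src (e : Edge) : Vertex := (e.1, e.2.1)

/-- Second endpoint of an edge. -/
def tgt (e : Edge) : Vertex := if e.2.2 then (e.1 + 1, e.2.1) else (e.1, e.2.1 + 1)

/-- Critical bond percolation on `ℤ²`: every edge is open (`true`) with probability `1 / 2`,
independently. -/
noncomputable def perc : Measure (Edge → Bool) :=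
  Measure.infinitePi (fun _ => (PMF.uniformOfFintype Bool).toMeasure)

/-- `u` and `v` are joined by an open edge with both endpoints in `T`. -/
def Adj (T : Set Vertex) (ω : Edge → Bool) (u v : Vertex) : Prop :=
  ∃ e : Edge, (ω e = true ∧ src e ∈ T ∧ tgt e ∈ T) ∧ ((src e = u ∧ tgt e = v) ∨ (src e = v ∧ tgt e = u))

/-- `u` and `v` are joined by an open path in `T`. -/
def Conn (T : Set Vertex) (ω : Edge → Bool) (u v : Vertex) : Prop := Relation.ReflTransGen (Adj T ω) u v

/-- The half-infinite strip `y ≤ x`, `-1 ≤ x + y ≤ 2 n + 1`, with the flat end `x = y` and two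
corners. -/
def strip (n : ℕ) : Set Vertex := {v | v.2 ≤ v.1 ∧ -1 ≤ v.1 + v.2 ∧ v.1 + v.2 ≤ 2 * n + 1}

/-- `m` legs between the two corners of the half-infinite strip: the `⌊m / 2⌋` vertices of the flat end
next to the left corner are in different open clusters of the strip, each of these clusters contains one
of the `⌊m / 2⌋` vertices next to the right corner and, if `m` is odd, none of the vertices between. -/
def Legs (n m : ℕ) (ω : Edge → Bool) : Prop :=
  (∀ a b : ℕ, a < m / 2 → b < m / 2 → a ≠ b → ¬ Conn (strip n) ω (a, a) (b, b)) ∧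
  (∀ a : ℕ, a < m / 2 → ∃ b : ℕ, b < m / 2 ∧ Conn (strip n) ω (a, a) ((n : ℤ) - b, (n : ℤ) - b)) ∧
  (m % 2 = 1 → ∀ a b : ℕ, a < m / 2 → m / 2 ≤ b → b + m / 2 ≤ n → ¬ Conn (strip n) ω (a, a) (b, b))

/-- The factors of the law of the number of legs. -/
noncomputable def factor (k n : ℕ) : ℝ :=
  ((2 * k).factorial * Real.Gamma (2 * k / 3 + 3 / 2) *
      (Real.Gamma (n + k / 3 + 2) * Real.Gamma (n - k + 3 / 2))) /
    (Real.Gamma (3 / 2) * Real.Gamma (4 * k / 3 + 2) *
      (Real.Gamma (n - k / 3 + 3 / 2) * Real.Gamma (n + k + 2)))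

/-- The factors of the constants of the asymptotics. -/
noncomputable def const (k : ℕ) : ℝ :=
  ((2 * k).factorial * Real.Gamma (2 * k / 3 + 3 / 2)) /
    (Real.Gamma (3 / 2) * Real.Gamma (4 * k / 3 + 2))

theorem perc_eq : perc = Pool.Agent.H988R2.Perc.perc := rfl

theorem mem_Ss {n : ℕ} {e : Edge} :
    e ∈ Pool.Agent.W808.KC.Ss n ↔ src e ∈ strip n ∧ tgt e ∈ strip n := by
  obtain ⟨x, y, b⟩ := e
  unfold Pool.Agent.W808.KC.Ss strip H906.Cyl.dco
  simp only [Set.mem_ofPred_eq]
  cases b
  · simp only [src, tgt, Bool.false_eq_true, if_false]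
    omega
  · simp only [src, tgt, if_true]
    omega

theorem conn_strip {n : ℕ} (ω : Edge → Bool) (u v : Vertex) :
    Conn (strip n) ω u v ↔ H974.Reach ({e | ω e = true} ∩ Pool.Agent.W808.KC.Ss n) u v := by
  have h : Adj (strip n) ω = H974.Adj ({e | ω e = true} ∩ Pool.Agent.W808.KC.Ss n) := by
    funext a b
    refine propext ⟨?_, ?_⟩
    · rintro ⟨e, ⟨h1, h2, h3⟩, h4⟩
      exact ⟨e, ⟨h1, mem_Ss.2 ⟨h2, h3⟩⟩, h4⟩
    · rintro ⟨e, ⟨h1, h2⟩, h4⟩
      exact ⟨e, ⟨h1, mem_Ss.1 h2⟩, h4⟩
  unfold Conn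
  rw [h]
  exact Iff.rfl

theorem legs_iff (n m : ℕ) (ω : Edge → Bool) :
    Legs n m ω ↔ Pool.Agent.W808.KC.P0 n m {e | ω e = true} := by
  unfold Legs Pool.Agent.W808.KC.P0 Pool.Agent.W808.KC.cv Pool.Agent.W808.KC.cw
  simp only [conn_strip]

/-- **`m` legs between two corners of angle `π / 2`.** (1) For `2 ≤ m ≤ n + 1` the probability of `m` legs
between the two corners of the half-infinite strip of width `n` is exactly the product of the
`factor k n`, `1 ≤ k < m`. (2) For fixed `m ≥ 2` it is asymptotic to `A n ^ (-2 m (m - 1) / 3)`,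
`n → ∞`, where `A` is the product of the `const k`, `1 ≤ k < m`. -/
theorem result :
    (∀ n m : ℕ, 2 ≤ m → m ≤ n + 1 →
      perc.real {ω | Legs n m ω} = ∏ k ∈ Finset.Ico 1 m, factor k n) ∧
    (∀ m : ℕ, 2 ≤ m →
      Filter.Tendsto (fun n : ℕ => (n : ℝ) ^ (2 * (m : ℝ) * (m - 1) / 3) * perc.real {ω | Legs n m ω})
        Filter.atTop (nhds (∏ k ∈ Finset.Ico 1 m, const k))) := by
  have h1 : ∀ n m : ℕ, 2 ≤ m → m ≤ n + 1 →
      perc.real {ω | Legs n m ω} = ∏ k ∈ Finset.Ico 1 m, factor k n := by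
    intro n m hm hmn
    have h := Pool.Agent.W808.KC.a_INF n m hm hmn
    rw [Pool.Agent.N622.KC.Pk_gamma n m (by omega) hmn] at h
    refine Eq.trans ?_ h
    rw [perc_eq]
    congr 1
    ext ω
    exact legs_iff n m ω
  refine ⟨h1, ?_⟩
  intro m hm
  refine (Pool.Agent.N622.KC.law_asymp m (by omega)).congr' ?_
  filter_upwards [Filter.eventually_ge_atTop m] with n hn
  rw [h1 n m hm (by omega)]
  rfl

end Pool.Agent.Results.MP_35f495_pr.CornerLegs
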